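import Mathlib
import Pool.Agent.Run7.h881.CK.Defs

set_option autoImplicit false

/-!
# Composition of parallel repeated projection games with `d`-to-1 tests: definitions
-/

namespace Run7.h881.CD

open Finset Run7.h881.CK

variable {I U V S G : Type} [Fintype S] [DecidableEq G]

/-- A game composed with the parallel repetition of the projection games `Q i`, `i : I`. It is a
bipartite game with the vertices `P` (labels in `A`) and `T` (labels in `B`); its edges `e` from
`src e` to `tgt e` have the constraints `pi e (label of src e) = label of tgt e`. Every vertex `p` in `P`
belongs to the table of a tuple `ownP p` of left vertices, and its honest label `honP p` is a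
function of the tuple of the labels of these left vertices. Every vertex `t` in `T` belongs to the
table of a tuple `ownT t` whose entries are left vertices or right vertices, and its honest label
`honT t` is a function of the labels of the entries. On every edge, for every `i`, the entry of
`ownT (tgt e)` is the same left vertex as the entry of `ownP (src e)`, or a right vertex adjacent to
it. -/
structure Game (Q : I → Source U V S G) (P T E A B : Type) where
  src : E → P
  tgt : E → T
  pi : E → A → B
  ownP : P → I → U
  honP : P → (I → S) → A
  ownT : T → I → U ⊕ V
  honT : T → (I → S ⊕ G) → B
  left : ∀ e i u, ownT (tgt e) i = Sum.inl u → ownP (src e) i = u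
  right : ∀ e i v, ownT (tgt e) i = Sum.inr v → (Q i).nbr (ownP (src e) i) v

/-- The label of the entry `o` of a tuple that belongs to the label `s` of the left vertex `u`: the
label `s` itself if `o` is a left vertex, and the projection of `s` if `o` is a right vertex. -/
def down (Q : Source U V S G) (u : U) (o : U ⊕ V) (s : S) : S ⊕ G :=
  match o with
  | Sum.inl _ => Sum.inl s
  | Sum.inr v => Sum.inr (Q.proj u v s)

variable {Q : I → Source U V S G} {P T E A B : Type}

/-- Perfect completeness: for each edge and all labels (of positive probability) of the left vertices
of the tuple of `src e`, the honest label of `src e` and the honest label of `tgt e` for the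
projections of these labels satisfy the constraint. -/
def Game.Perfect (R : Game Q P T E A B) : Prop :=
  ∀ (e : E) (a : I → S), (∀ i, 0 < (Q i).mu (R.ownP (R.src e) i) (a i)) →
    R.pi e (R.honP (R.src e) a) = R.honT (R.tgt e)
      (fun i => down (Q i) (R.ownP (R.src e) i) (R.ownT (R.tgt e) i) (a i))

open scoped Classical in
/-- `γ`-mixing vertices `p` of `P`: for each `i` and a random edge `e` at `p`, the entry `i` of
`ownT (tgt e)` is with probability at least `2 γ` a right vertex, and for every right vertex `v` it is
with probability at least `γ` a right vertex different from `v`. -/
def Game.Mixing [Fintype E] (R : Game Q P T E A B) (γ : ℝ) (p : P) : Prop :=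
  ∀ i, 2 * γ * ((univ.filter fun e => R.src e = p).card : ℝ) ≤
      ((univ.filter fun e => R.src e = p ∧ ∃ v', R.ownT (R.tgt e) i = Sum.inr v').card : ℝ) ∧
    ∀ v, γ * ((univ.filter fun e => R.src e = p).card : ℝ) ≤
      ((univ.filter fun e => R.src e = p ∧ ∃ v', v' ≠ v ∧ R.ownT (R.tgt e) i = Sum.inr v').card : ℝ)

end Run7.h881.CD
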