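import Mathlib

set_option autoImplicit false
set_option linter.unusedSectionVars false

/-!
# Entropy of functions on a finite probability space
-/

namespace Run7.h881.CD

open Finset
open scoped Classical

variable {Ω : Type} [Fintype Ω]

/-- The probability of the event that `f` has the same value as at `ω`. -/
noncomputable def mass {α : Type} (p : Ω → ℝ) (f : Ω → α) (ω : Ω) : ℝ :=
  ∑ ω', if f ω' = f ω then p ω' else 0

/-- The entropy of `f`. -/
noncomputable def ent {α : Type} (p : Ω → ℝ) (f : Ω → α) : ℝ :=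
  ∑ ω, p ω * (-Real.log (mass p f ω))

lemma mass_eq {α : Type} (p : Ω → ℝ) (f : Ω → α) (ω : Ω) [∀ ω', Decidable (f ω' = f ω)] :
    mass p f ω = ∑ ω', if f ω' = f ω then p ω' else 0 := by
  unfold mass
  refine Finset.sum_congr rfl fun ω' _ => ?_
  by_cases h : f ω' = f ω
  · rw [if_pos h, if_pos h]
  · rw [if_neg h, if_neg h]

section basic

variable {p : Ω → ℝ} (hp : ∀ ω, 0 ≤ p ω) (hs : ∑ ω, p ω = 1)
include hp

lemma le_mass {α : Type} (f : Ω → α) (ω : Ω) : p ω ≤ mass p f ω := by
  unfold mass
  refine le_trans (le_of_eq ?_) (Finset.single_le_sum (f := fun ω' => if f ω' = f ω then p ω' else 0)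
    (fun i _ => ?_) (Finset.mem_univ ω))
  · simp
  · split_ifs
    · exact hp _
    · exact le_rfl

lemma mass_nonneg {α : Type} (f : Ω → α) (ω : Ω) : 0 ≤ mass p f ω := (hp ω).trans (le_mass hp f ω)

lemma mass_pos {α : Type} (f : Ω → α) {ω : Ω} (h : p ω ≠ 0) : 0 < mass p f ω :=
  lt_of_lt_of_le (lt_of_le_of_ne (hp ω) (Ne.symm h)) (le_mass hp f ω)

lemma mass_mono {α β : Type} {f : Ω → α} {g : Ω → β}
    (h : ∀ ω ω', p ω ≠ 0 → p ω' ≠ 0 → g ω' = g ω → f ω' = f ω) {ω : Ω} (h0 : p ω ≠ 0) :
    mass p g ω ≤ mass p f ω := by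
  unfold mass
  refine Finset.sum_le_sum fun ω' _ => ?_
  by_cases h1 : p ω' = 0
  · simp [h1]
  · by_cases h2 : g ω' = g ω
    · rw [if_pos h2, if_pos (h ω ω' h0 h1 h2)]
    · rw [if_neg h2]
      split_ifs
      · exact hp _
      · exact le_rfl

lemma ent_mono {α β : Type} {f : Ω → α} {g : Ω → β}
    (h : ∀ ω ω', p ω ≠ 0 → p ω' ≠ 0 → g ω' = g ω → f ω' = f ω) : ent p f ≤ ent p g := by
  unfold ent
  refine Finset.sum_le_sum fun ω _ => ?_
  by_cases h0 : p ω = 0
  · simp [h0]
  · refine mul_le_mul_of_nonneg_left ?_ (hp ω)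
    rw [neg_le_neg_iff]
    exact Real.log_le_log (mass_pos hp g h0) (mass_mono hp h h0)

lemma ent_congr {α β : Type} {f : Ω → α} {g : Ω → β}
    (h : ∀ ω ω', g ω' = g ω ↔ f ω' = f ω) : ent p f = ent p g :=
  le_antisymm (ent_mono hp fun ω ω' _ _ => (h ω ω').mp) (ent_mono hp fun ω ω' _ _ => (h ω ω').mpr)

include hs

lemma mass_le_one {α : Type} (f : Ω → α) (ω : Ω) : mass p f ω ≤ 1 := by
  rw [← hs]
  unfold mass
  refine Finset.sum_le_sum fun ω' _ => ?_
  split_ifs
  · exact le_rfl
  · exact hp _

lemma ent_nonneg {α : Type} (f : Ω → α) : 0 ≤ ent p f := by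
  unfold ent
  refine Finset.sum_nonneg fun ω _ => mul_nonneg (hp ω) ?_
  have := Real.log_nonpos (mass_nonneg hp f ω) (mass_le_one hp hs f ω)
  linarith

lemma ent_const {α : Type} (f : Ω → α) (h : ∀ ω ω', f ω = f ω') : ent p f = 0 := by
  unfold ent
  refine Finset.sum_eq_zero fun ω _ => ?_
  have h1 : mass p f ω = 1 := by
    unfold mass
    rw [← hs]
    exact Finset.sum_congr rfl fun ω' _ => if_pos (h ω' ω)
  rw [h1, Real.log_one, neg_zero, mul_zero]

/-- If all values of `f` have probability at most `M` then the entropy is at least `- log M`. -/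
lemma ent_ge {α : Type} (f : Ω → α) {M : ℝ} (h : ∀ ω, p ω ≠ 0 → mass p f ω ≤ M) :
    -Real.log M ≤ ent p f := by
  unfold ent
  have h1 : -Real.log M = ∑ ω, p ω * (-Real.log M) := by
    rw [← Finset.sum_mul, hs, one_mul]
  rw [h1]
  refine Finset.sum_le_sum fun ω _ => ?_
  by_cases h0 : p ω = 0
  · simp [h0]
  · refine mul_le_mul_of_nonneg_left ?_ (hp ω)
    rw [neg_le_neg_iff]
    exact Real.log_le_log (mass_pos hp f h0) (h ω h0)

/-- Submodularity of entropy. -/
lemma ent_submod {α β γ : Type} (f : Ω → α) (g : Ω → β) (k : Ω → γ) :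
    ent p (fun ω => (f ω, g ω, k ω)) + ent p k ≤
      ent p (fun ω => (f ω, k ω)) + ent p (fun ω => (g ω, k ω)) := by
  set A := mass p (fun ω => (f ω, k ω)) with hA
  set B := mass p (fun ω => (g ω, k ω)) with hB
  set C := mass p (fun ω => (f ω, g ω, k ω)) with hC
  set D := mass p k with hD
  -- the key sum
  have key : ∑ ω, p ω * (A ω * B ω / (C ω * D ω)) ≤ 1 := by
    have e1 : ∀ ω, p ω * (A ω * B ω / (C ω * D ω)) = ∑ ω1, ∑ ω2,
        (if (f ω1, k ω1) = (f ω, k ω) then p ω1 else 0) *
        (if (g ω2, k ω2) = (g ω, k ω) then p ω2 else 0) * (p ω / (C ω * D ω)) := by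
      intro ω
      have h1 : A ω = ∑ ω1, (if (f ω1, k ω1) = (f ω, k ω) then p ω1 else 0) := mass_eq p _ ω
      have h2 : B ω = ∑ ω2, (if (g ω2, k ω2) = (g ω, k ω) then p ω2 else 0) := mass_eq p _ ω
      calc p ω * (A ω * B ω / (C ω * D ω)) = (A ω * B ω) * (p ω / (C ω * D ω)) := by ring
        _ = _ := by
          rw [h1, h2, Finset.sum_mul_sum, Finset.sum_mul]
          refine Finset.sum_congr rfl fun ω1 _ => ?_
          rw [Finset.sum_mul]
    rw [Finset.sum_congr rfl fun ω _ => e1 ω, Finset.sum_comm]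
    have e2 : ∀ ω1, ∑ ω, ∑ ω2,
        (if (f ω1, k ω1) = (f ω, k ω) then p ω1 else 0) *
        (if (g ω2, k ω2) = (g ω, k ω) then p ω2 else 0) * (p ω / (C ω * D ω)) ≤ p ω1 := by
      intro ω1
      rw [Finset.sum_comm]
      by_cases h0 : p ω1 = 0
      · simp [h0]
      have hD1 : 0 < D ω1 := mass_pos hp k h0
      have e3 : ∀ ω2, ∑ ω, (if (f ω1, k ω1) = (f ω, k ω) then p ω1 else 0) *
          (if (g ω2, k ω2) = (g ω, k ω) then p ω2 else 0) * (p ω / (C ω * D ω)) ≤
          p ω1 * ((if k ω2 = k ω1 then p ω2 else 0) / D ω1) := by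
        intro ω2
        by_cases hex : ∃ ω0, p ω0 ≠ 0 ∧ f ω0 = f ω1 ∧ k ω0 = k ω1 ∧ g ω0 = g ω2 ∧ k ω0 = k ω2
        · obtain ⟨ω0, hω0, h1, h2, h3, h4⟩ := hex
          have hC0 : 0 < C ω0 := mass_pos hp _ hω0
          have h5 : k ω2 = k ω1 := by rw [← h4, h2]
          rw [if_pos h5]
          have e4 : ∀ ω, (if (f ω1, k ω1) = (f ω, k ω) then p ω1 else 0) *
              (if (g ω2, k ω2) = (g ω, k ω) then p ω2 else 0) * (p ω / (C ω * D ω)) =
              (p ω1 * p ω2 / (C ω0 * D ω1)) *
                (if (f ω, g ω, k ω) = (f ω0, g ω0, k ω0) then p ω else 0) := by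
            intro ω
            by_cases h6 : (f ω, g ω, k ω) = (f ω0, g ω0, k ω0)
            · have h6' := h6
              simp only [Prod.mk.injEq] at h6'
              obtain ⟨a1, a2, a3⟩ := h6'
              rw [if_pos h6, if_pos (by rw [a1, a3, h1, h2]), if_pos (by rw [a2, a3, h3, h4])]
              have c1 : C ω = C ω0 := by
                simp only [hC, mass]
                rw [h6]
              have c2 : D ω = D ω1 := by
                simp only [hD, mass]
                rw [a3, h2]
              rw [c1, c2]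
              ring
            · rw [if_neg h6, mul_zero]
              by_cases h7 : (f ω1, k ω1) = (f ω, k ω)
              · have h8 : (g ω2, k ω2) ≠ (g ω, k ω) := by
                  intro h8
                  apply h6
                  simp only [Prod.mk.injEq] at h7 h8 ⊢
                  refine ⟨?_, ?_, ?_⟩
                  · rw [← h7.1, h1]
                  · rw [← h8.1, h3]
                  · rw [← h7.2, h2]
                rw [if_neg h8]
                ring
              · rw [if_neg h7]
                ring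
          rw [Finset.sum_congr rfl fun ω _ => e4 ω, ← Finset.mul_sum]
          have h9 : ∑ ω, (if (f ω, g ω, k ω) = (f ω0, g ω0, k ω0) then p ω else 0) = C ω0 :=
            (mass_eq p (fun ω => (f ω, g ω, k ω)) ω0).symm
          rw [h9]
          apply le_of_eq
          field_simp
        · have h10 : ∀ ω, (if (f ω1, k ω1) = (f ω, k ω) then p ω1 else 0) *
              (if (g ω2, k ω2) = (g ω, k ω) then p ω2 else 0) * (p ω / (C ω * D ω)) = 0 := by
            intro ω
            by_cases h7 : (f ω1, k ω1) = (f ω, k ω)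
            · by_cases h8 : (g ω2, k ω2) = (g ω, k ω)
              · by_cases h11 : p ω = 0
                · rw [h11]; ring
                · exfalso
                  simp only [Prod.mk.injEq] at h7 h8
                  exact hex ⟨ω, h11, h7.1.symm, h7.2.symm, h8.1.symm, h8.2.symm⟩
              · rw [if_neg h8]; ring
            · rw [if_neg h7]; ring
          rw [Finset.sum_congr rfl fun ω _ => h10 ω, Finset.sum_const_zero]
          refine mul_nonneg (hp _) (div_nonneg ?_ hD1.le)
          split_ifs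
          · exact hp _
          · exact le_rfl
      refine (Finset.sum_le_sum fun ω2 _ => e3 ω2).trans (le_of_eq ?_)
      rw [← Finset.mul_sum, ← Finset.sum_div]
      have h12 : ∑ ω2, (if k ω2 = k ω1 then p ω2 else 0) = D ω1 := rfl
      rw [h12, div_self hD1.ne', mul_one]
    exact (Finset.sum_le_sum fun ω1 _ => e2 ω1).trans (le_of_eq hs)
  have h2 : ent p (fun ω => (f ω, g ω, k ω)) + ent p k -
      (ent p (fun ω => (f ω, k ω)) + ent p (fun ω => (g ω, k ω))) ≤
      ∑ ω, p ω * (A ω * B ω / (C ω * D ω)) - 1 := by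
    have h3 : ∑ ω, p ω * (A ω * B ω / (C ω * D ω)) - 1 =
        ∑ ω, p ω * (A ω * B ω / (C ω * D ω) - 1) := by
      simp only [mul_sub, mul_one, Finset.sum_sub_distrib, hs]
    rw [h3]
    unfold ent
    rw [← Finset.sum_add_distrib, ← Finset.sum_add_distrib, ← Finset.sum_sub_distrib]
    refine Finset.sum_le_sum fun ω _ => ?_
    by_cases h0 : p ω = 0
    · simp [h0]
    · have a1 : 0 < A ω := mass_pos hp _ h0
      have a2 : 0 < B ω := mass_pos hp _ h0
      have a3 : 0 < C ω := mass_pos hp _ h0
      have a4 : 0 < D ω := mass_pos hp _ h0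
      have h4 := Real.log_le_sub_one_of_pos (div_pos (mul_pos a1 a2) (mul_pos a3 a4))
      rw [Real.log_div (mul_pos a1 a2).ne' (mul_pos a3 a4).ne', Real.log_mul a1.ne' a2.ne',
        Real.log_mul a3.ne' a4.ne'] at h4
      have h5 := mul_le_mul_of_nonneg_left h4 (hp ω)
      refine le_trans (le_of_eq ?_) h5
      ring
  linarith

/-- A function `h` is determined by `π ∘ h` up to `d` choices. -/
lemma ent_fibre {α β : Type} [Fintype α] (h : Ω → α) (π : α → β) (d : ℕ) (hd : 1 ≤ d)
    (hfib : ∀ b, (univ.filter fun a => π a = b).card ≤ d) :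
    ent p h ≤ ent p (fun ω => π (h ω)) + Real.log d := by
  set A := mass p h with hA
  set B := mass p (fun ω => π (h ω)) with hB
  have hd' : (0 : ℝ) < d := by exact_mod_cast hd
  have key : ∑ ω, p ω * (B ω / A ω) ≤ d := by
    have e1 : ∀ ω, p ω * (B ω / A ω) =
        ∑ a : α, (if h ω = a then p ω / A ω * B ω else 0) := by
      intro ω
      rw [Finset.sum_ite_eq univ (h ω) (fun _ => p ω / A ω * B ω), if_pos (Finset.mem_univ _)]
      ring
    rw [Finset.sum_congr rfl fun ω _ => e1 ω, Finset.sum_comm]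
    have e2 : ∀ a : α, ∑ ω, (if h ω = a then p ω / A ω * B ω else 0) ≤
        ∑ ω', if π (h ω') = π a then p ω' else 0 := by
      intro a
      have hr : 0 ≤ ∑ ω', if π (h ω') = π a then p ω' else 0 :=
        Finset.sum_nonneg fun ω' _ => by
          split_ifs
          · exact hp _
          · exact le_rfl
      by_cases hex : ∃ ω0, p ω0 ≠ 0 ∧ h ω0 = a
      · obtain ⟨ω0, h0, h1⟩ := hex
        have hA0 : 0 < A ω0 := mass_pos hp _ h0
        have e3 : ∀ ω, (if h ω = a then p ω / A ω * B ω else 0) =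
            (B ω0 / A ω0) * (if h ω = h ω0 then p ω else 0) := by
          intro ω
          by_cases h2 : h ω = a
          · rw [if_pos h2, if_pos (by rw [h2, h1])]
            have c1 : A ω = A ω0 := by simp only [hA, mass]; rw [h2, h1]
            have c2 : B ω = B ω0 := by simp only [hB, mass]; rw [h2, h1]
            rw [c1, c2]; ring
          · rw [if_neg h2, if_neg (by rw [h1]; exact h2), mul_zero]
        rw [Finset.sum_congr rfl fun ω _ => e3 ω, ← Finset.mul_sum]
        have h9 : ∑ ω, (if h ω = h ω0 then p ω else 0) = A ω0 := rfl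
        have h10 : B ω0 = ∑ ω', if π (h ω') = π a then p ω' else 0 := by
          simp only [hB, mass]
          rw [h1]
        rw [h9, div_mul_cancel₀ _ hA0.ne', h10]
      · refine le_trans (le_of_eq ?_) hr
        refine Finset.sum_eq_zero fun ω _ => ?_
        by_cases h2 : h ω = a
        · rw [if_pos h2]
          by_cases h3 : p ω = 0
          · rw [h3]; ring
          · exact absurd ⟨ω, h3, h2⟩ hex
        · rw [if_neg h2]
    refine (Finset.sum_le_sum fun a _ => e2 a).trans ?_
    rw [Finset.sum_comm]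
    have e4 : ∀ ω', ∑ a : α, (if π (h ω') = π a then p ω' else 0) ≤ p ω' * d := by
      intro ω'
      rw [← Finset.sum_filter, Finset.sum_const, nsmul_eq_mul, mul_comm]
      refine mul_le_mul_of_nonneg_left ?_ (hp _)
      have := hfib (π (h ω'))
      have h5 : (univ.filter fun a => π (h ω') = π a) = (univ.filter fun a => π a = π (h ω')) := by
        ext a
        simp [eq_comm]
      rw [h5]
      exact_mod_cast this
    refine (Finset.sum_le_sum fun a _ => e4 a).trans (le_of_eq ?_)
    rw [← Finset.sum_mul, hs, one_mul]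
  have h2 : ent p h - (ent p (fun ω => π (h ω)) + Real.log d) ≤
      (∑ ω, p ω * (B ω / A ω)) / d - 1 := by
    have h3 : (∑ ω, p ω * (B ω / A ω)) / d - 1 = ∑ ω, p ω * (B ω / A ω / d - 1) := by
      simp only [mul_sub, mul_one, Finset.sum_sub_distrib, hs]
      rw [Finset.sum_div]
      congr 1
      exact Finset.sum_congr rfl fun ω _ => by ring
    have h4 : Real.log d = ∑ ω, p ω * Real.log d := by rw [← Finset.sum_mul, hs, one_mul]
    rw [h3, h4]
    unfold ent
    rw [← Finset.sum_add_distrib, ← Finset.sum_sub_distrib]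
    refine Finset.sum_le_sum fun ω _ => ?_
    by_cases h0 : p ω = 0
    · simp [h0]
    · have a1 : 0 < A ω := mass_pos hp _ h0
      have a2 : 0 < B ω := mass_pos hp _ h0
      have h4 := Real.log_le_sub_one_of_pos (div_pos (div_pos a2 a1) hd')
      rw [Real.log_div (div_pos a2 a1).ne' hd'.ne', Real.log_div a2.ne' a1.ne'] at h4
      have h5 := mul_le_mul_of_nonneg_left h4 (hp ω)
      refine le_trans (le_of_eq ?_) h5
      ring
  have h6 : (∑ ω, p ω * (B ω / A ω)) / d ≤ 1 := by
    rw [div_le_one hd']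
    exact key
  linarith

end basic

end Run7.h881.CD
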