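import Mathlib
import Pool.Agent.Run7.h881.CD.Ent

set_option autoImplicit false
set_option linter.unusedSectionVars false

/-!
# Entropy on product spaces
-/

namespace Run7.h881.CD

open Finset
open scoped Classical

variable {I S : Type} [Fintype I] [Fintype S]

/-- The product weight. -/
noncomputable def pw (m : I → S → ℝ) (a : I → S) : ℝ := ∏ i, m i (a i)

lemma sum_prod_fn (F : I → S → ℝ) : ∑ a : I → S, ∏ i, F i (a i) = ∏ i, ∑ s, F i s := by
  rw [Finset.prod_univ_sum, Fintype.piFinset_univ]

variable {m : I → S → ℝ} (hm : ∀ i s, 0 ≤ m i s) (hs : ∀ i, ∑ s, m i s = 1)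

include hm in
lemma pw_nonneg (a : I → S) : 0 ≤ pw m a := Finset.prod_nonneg fun i _ => hm i _

include hs in
lemma pw_sum : ∑ a, pw m a = 1 := by
  unfold pw
  rw [sum_prod_fn]
  exact Finset.prod_eq_one fun i _ => hs i

include hs in
/-- Marginal of one coordinate. -/
lemma sum_pw_coord (j : I) (F : S → ℝ) : ∑ a, pw m a * F (a j) = ∑ s, m j s * F s := by
  have e : ∀ a : I → S, pw m a * F (a j) = ∏ i, (m i (a i) * if i = j then F (a i) else 1) := by
    intro a
    rw [Finset.prod_mul_distrib]
    unfold pw
    congr 1
    rw [Finset.prod_ite_eq' univ j (fun i => F (a i)), if_pos (Finset.mem_univ _)]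
  rw [Finset.sum_congr rfl fun a _ => e a, sum_prod_fn (fun i s => m i s * if i = j then F s else 1),
    ← Finset.mul_prod_erase univ _ (Finset.mem_univ j)]
  have h1 : ∏ i ∈ univ.erase j, ∑ s, (m i s * if i = j then F s else 1) = 1 := by
    refine Finset.prod_eq_one fun i hi => ?_
    have : i ≠ j := (Finset.mem_erase.mp hi).1
    simp [this, hs i]
  rw [h1, mul_one]
  simp

/-- The values of the functions `y i` at the coordinates in `J`. -/
noncomputable def tup {β : Type} (J : Finset I) (y : I → S → β) (a : I → S) : I → Option β :=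
  fun i => if i ∈ J then some (y i (a i)) else none

lemma tup_eq_iff {β : Type} (J : Finset I) (y : I → S → β) (a b : I → S) :
    tup J y a = tup J y b ↔ ∀ i ∈ J, y i (a i) = y i (b i) := by
  constructor
  · intro h i hi
    have h1 := congrFun h i
    unfold tup at h1
    rw [if_pos hi, if_pos hi] at h1
    exact Option.some.inj h1
  · intro h
    funext i
    unfold tup
    by_cases hi : i ∈ J
    · rw [if_pos hi, if_pos hi, h i hi]
    · rw [if_neg hi, if_neg hi]

lemma tup_insert_eq_iff {β : Type} (J : Finset I) (j : I) (y : I → S → β) (a b : I → S) :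
    tup (insert j J) y a = tup (insert j J) y b ↔ y j (a j) = y j (b j) ∧ tup J y a = tup J y b := by
  rw [tup_eq_iff, tup_eq_iff]
  simp

lemma mass_tup {β : Type} (J : Finset I) (y : I → S → β) (a : I → S) :
    mass (pw m) (tup J y) a =
      ∏ i, ∑ s, (m i s * if i ∈ J then (if y i s = y i (a i) then 1 else 0) else 1) := by
  unfold mass
  rw [← sum_prod_fn (fun i s => m i s * if i ∈ J then (if y i s = y i (a i) then 1 else 0) else 1)]
  refine Finset.sum_congr rfl fun b _ => ?_
  rw [Finset.prod_mul_distrib]
  by_cases h : tup J y b = tup J y a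
  · rw [if_pos h]
    have h1 : ∏ i, (if i ∈ J then (if y i (b i) = y i (a i) then (1 : ℝ) else 0) else 1) = 1 := by
      refine Finset.prod_eq_one fun i _ => ?_
      by_cases hi : i ∈ J
      · rw [if_pos hi, if_pos ((tup_eq_iff J y b a).mp h i hi)]
      · rw [if_neg hi]
    rw [h1, mul_one]
    rfl
  · rw [if_neg h]
    rw [tup_eq_iff] at h
    push Not at h
    obtain ⟨i, hi, hne⟩ := h
    have h1 : ∏ i, (if i ∈ J then (if y i (b i) = y i (a i) then (1 : ℝ) else 0) else 1) = 0 := by
      apply Finset.prod_eq_zero (Finset.mem_univ i)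
      rw [if_pos hi, if_neg hne]
    rw [h1, mul_zero]

include hs in
lemma mass_pair {α β : Type} (J : Finset I) (y : I → S → β) {j : I} (hj : j ∉ J) (z : S → α)
    (a : I → S) :
    mass (pw m) (fun b => (z (b j), tup J y b)) a =
      mass (m j) z (a j) * mass (pw m) (tup J y) a := by
  rw [mass_tup]
  have h1 : mass (pw m) (fun b => (z (b j), tup J y b)) a = ∏ i, ∑ s, (m i s *
      ((if i ∈ J then (if y i s = y i (a i) then 1 else 0) else 1) *
        if i = j then (if z s = z (a j) then 1 else 0) else 1)) := by
    unfold mass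
    rw [← sum_prod_fn (fun i s => m i s *
      ((if i ∈ J then (if y i s = y i (a i) then 1 else 0) else 1) *
        if i = j then (if z s = z (a j) then 1 else 0) else 1))]
    refine Finset.sum_congr rfl fun b _ => ?_
    rw [Finset.prod_mul_distrib, Finset.prod_mul_distrib,
      Finset.prod_ite_eq' univ j (fun i => if z (b i) = z (a j) then (1 : ℝ) else 0),
      if_pos (Finset.mem_univ j)]
    by_cases hz : z (b j) = z (a j)
    · by_cases h : tup J y b = tup J y a
      · rw [if_pos (show (z (b j), tup J y b) = (z (a j), tup J y a) by rw [hz, h]), if_pos hz]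
        have h1 : ∏ i, (if i ∈ J then (if y i (b i) = y i (a i) then (1 : ℝ) else 0) else 1) = 1 := by
          refine Finset.prod_eq_one fun i _ => ?_
          by_cases hi : i ∈ J
          · rw [if_pos hi, if_pos ((tup_eq_iff J y b a).mp h i hi)]
          · rw [if_neg hi]
        rw [h1, mul_one, mul_one]
        rfl
      · rw [if_neg (by
          intro hc
          exact h (Prod.mk.inj hc).2)]
        rw [tup_eq_iff] at h
        push Not at h
        obtain ⟨i, hi, hne⟩ := h
        have h1 : ∏ i, (if i ∈ J then (if y i (b i) = y i (a i) then (1 : ℝ) else 0) else 1) = 0 := by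
          apply Finset.prod_eq_zero (Finset.mem_univ i)
          rw [if_pos hi, if_neg hne]
        rw [h1, zero_mul, mul_zero]
    · rw [if_neg (by
        intro hc
        exact hz (Prod.mk.inj hc).1), if_neg hz, mul_zero, mul_zero]
  rw [h1, ← Finset.mul_prod_erase univ _ (Finset.mem_univ j),
    ← Finset.mul_prod_erase univ (fun i => ∑ s, (m i s *
      if i ∈ J then (if y i s = y i (a i) then 1 else 0) else 1)) (Finset.mem_univ j)]
  have h2 : ∑ s, (m j s * ((if j ∈ J then (if y j s = y j (a j) then 1 else 0) else 1) *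
      if j = j then (if z s = z (a j) then 1 else 0) else 1)) = mass (m j) z (a j) := by
    unfold mass
    refine Finset.sum_congr rfl fun s _ => ?_
    rw [if_neg hj, if_pos rfl, one_mul]
    by_cases hz : z s = z (a j)
    · rw [if_pos hz, if_pos hz, mul_one]
    · rw [if_neg hz, if_neg hz, mul_zero]
  have h3 : ∑ s, (m j s * if j ∈ J then (if y j s = y j (a j) then 1 else 0) else 1) = 1 := by
    refine Eq.trans ?_ (hs j)
    refine Finset.sum_congr rfl fun s _ => ?_
    rw [if_neg hj, mul_one]
  rw [h2, h3, one_mul]
  congr 1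
  refine Finset.prod_congr rfl fun i hi => ?_
  have hij : i ≠ j := (Finset.mem_erase.mp hi).1
  refine Finset.sum_congr rfl fun s _ => ?_
  rw [if_neg hij, mul_one]

include hm hs in
/-- A function of a new coordinate is independent of the coordinates in `J`. -/
lemma ent_pair {α β : Type} (J : Finset I) (y : I → S → β) {j : I} (hj : j ∉ J) (z : S → α) :
    ent (pw m) (fun b => (z (b j), tup J y b)) = ent (m j) z + ent (pw m) (tup J y) := by
  unfold ent
  rw [← sum_pw_coord hs j (fun s => -Real.log (mass (m j) z s)), ← Finset.sum_add_distrib]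
  refine Finset.sum_congr rfl fun a _ => ?_
  by_cases h0 : pw m a = 0
  · simp [h0]
  · rw [mass_pair hs J y hj z a]
    have hmj : m j (a j) ≠ 0 := by
      intro h
      exact h0 (Finset.prod_eq_zero (Finset.mem_univ j) h)
    rw [Real.log_mul (mass_pos (fun s => hm j s) z hmj).ne' (mass_pos (pw_nonneg hm) _ h0).ne']
    ring

section info

/-- The information that `Y` gives about `h` when `Z` is known is `H(Y, Z) + H(h, Z) - H(Y, h, Z) - H(Z)`;
this is it for a function `z` of the coordinate `j` and `Z` the coordinates in `J`. -/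
noncomputable def gain {A α : Type} (m : I → S → ℝ) (h : (I → S) → A) (J : Finset I) (j : I)
    (z : S → α) : ℝ :=
  ent (m j) z + ent (pw m) (fun b => (h b, tup J (fun _ s => s) b)) -
    ent (pw m) (fun b => (z (b j), h b, tup J (fun _ s => s) b))

/-- The information of the functions `y i` of the coordinates in `J` about `h`. -/
noncomputable def info {A β : Type} (m : I → S → ℝ) (h : (I → S) → A) (J : Finset I)
    (y : I → S → β) : ℝ :=
  ent (pw m) h + ent (pw m) (tup J y) - ent (pw m) (fun b => (h b, tup J y b))

include hm hs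

lemma info_empty {A β : Type} (h : (I → S) → A) (y : I → S → β) : info m h ∅ y = 0 := by
  unfold info
  have hp := pw_nonneg hm
  have h1 : ent (pw m) (tup ∅ y) = 0 := by
    apply ent_const hp (pw_sum hs)
    intro a b
    rw [tup_eq_iff]
    simp
  have h2 : ent (pw m) (fun b => (h b, tup ∅ y b)) = ent (pw m) h := by
    apply ent_congr hp
    intro a b
    constructor
    · intro h3
      simp only [Prod.mk.injEq]
      exact ⟨h3, (tup_eq_iff _ _ _ _).mpr (by simp)⟩
    · intro h3
      exact (Prod.mk.inj h3).1
  rw [h1, h2]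
  ring

lemma info_insert_le {A β : Type} (h : (I → S) → A) (J : Finset I) {j : I} (hj : j ∉ J)
    (y : I → S → β) : info m h (insert j J) y ≤ info m h J y + gain m h J j (y j) := by
  have hp := pw_nonneg hm
  have hps := pw_sum hs
  unfold info gain
  have e1 : ent (pw m) (tup (insert j J) y) = ent (m j) (y j) + ent (pw m) (tup J y) := by
    rw [← ent_pair hm hs J y hj (y j)]
    apply ent_congr hp
    intro a b
    rw [tup_insert_eq_iff, Prod.mk.injEq]
  have e2 : ent (pw m) (fun b => (h b, tup (insert j J) y b)) =
      ent (pw m) (fun b => (y j (b j), h b, tup J y b)) := by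
    apply ent_congr hp
    intro a b
    simp only [Prod.mk.injEq, tup_insert_eq_iff]
    tauto
  have e3 := ent_submod hp hps (fun b : I → S => y j (b j)) (tup J (fun _ s => s))
    (fun b => (h b, tup J y b))
  have hfun : ∀ a b : I → S, tup J (fun _ (s : S) => s) a = tup J (fun _ (s : S) => s) b →
      tup J y a = tup J y b := by
    intro a b h1
    rw [tup_eq_iff] at h1 ⊢
    intro i hi
    rw [h1 i hi]
  have e4 : ent (pw m) (fun ω => (y j (ω j), tup J (fun _ (s : S) => s) ω, h ω, tup J y ω)) =
      ent (pw m) (fun b => (y j (b j), h b, tup J (fun _ (s : S) => s) b)) := by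
    apply ent_congr hp
    intro a b
    simp only [Prod.mk.injEq]
    constructor
    · rintro ⟨h1, h2, h3⟩
      exact ⟨h1, h3, h2, hfun _ _ h3⟩
    · rintro ⟨h1, h2, h3, _⟩
      exact ⟨h1, h3, h2⟩
  have e5 : ent (pw m) (fun ω => (tup J (fun _ (s : S) => s) ω, h ω, tup J y ω)) =
      ent (pw m) (fun b => (h b, tup J (fun _ (s : S) => s) b)) := by
    apply ent_congr hp
    intro a b
    simp only [Prod.mk.injEq]
    constructor
    · rintro ⟨h1, h2⟩
      exact ⟨h2, h1, hfun _ _ h2⟩
    · rintro ⟨h1, h2, _⟩
      exact ⟨h2, h1⟩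
  rw [e4, e5] at e3
  rw [e1, e2]
  linarith

lemma info_insert_id {A : Type} (h : (I → S) → A) (J : Finset I) {j : I} (hj : j ∉ J) :
    info m h (insert j J) (fun _ s => s) =
      info m h J (fun _ s => s) + gain m h J j (fun s => s) := by
  have hp := pw_nonneg hm
  unfold info gain
  have e1 : ent (pw m) (tup (insert j J) (fun _ (s : S) => s)) =
      ent (m j) (fun s => s) + ent (pw m) (tup J (fun _ (s : S) => s)) := by
    rw [← ent_pair hm hs J (fun _ s => s) hj (fun s => s)]
    apply ent_congr hp
    intro a b
    rw [tup_insert_eq_iff, Prod.mk.injEq]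
  have e2 : ent (pw m) (fun b => (h b, tup (insert j J) (fun _ (s : S) => s) b)) =
      ent (pw m) (fun b => (b j, h b, tup J (fun _ (s : S) => s) b)) := by
    apply ent_congr hp
    intro a b
    simp only [Prod.mk.injEq, tup_insert_eq_iff]
    tauto
  rw [e1, e2]
  ring

/-- A function of the coordinate gives at most as much information as the coordinate. -/
lemma gain_le_id {A α : Type} (h : (I → S) → A) (J : Finset I) {j : I} (hj : j ∉ J) (z : S → α) :
    gain m h J j z ≤ gain m h J j (fun s => s) := by
  have hp := pw_nonneg hm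
  have hps := pw_sum hs
  unfold gain
  have e1 := ent_pair hm hs J (fun _ s => s) hj z
  have e2 := ent_pair hm hs J (fun _ s => s) hj (fun s => s)
  have e3 := ent_submod hp hps h (fun b : I → S => b j)
    (fun b => (z (b j), tup J (fun _ (s : S) => s) b))
  have e4 : ent (pw m) (fun ω => (h ω, ω j, z (ω j), tup J (fun _ (s : S) => s) ω)) =
      ent (pw m) (fun b => (b j, h b, tup J (fun _ (s : S) => s) b)) := by
    apply ent_congr hp
    intro a b
    simp only [Prod.mk.injEq]
    constructor
    · rintro ⟨h1, h2, h3⟩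
      exact ⟨h2, h1, by rw [h1], h3⟩
    · rintro ⟨h1, h2, _, h3⟩
      exact ⟨h2, h1, h3⟩
  have e5 : ent (pw m) (fun ω => (h ω, z (ω j), tup J (fun _ (s : S) => s) ω)) =
      ent (pw m) (fun b => (z (b j), h b, tup J (fun _ (s : S) => s) b)) := by
    apply ent_congr hp
    intro a b
    simp only [Prod.mk.injEq]
    tauto
  have e6 : ent (pw m) (fun ω => (ω j, z (ω j), tup J (fun _ (s : S) => s) ω)) =
      ent (pw m) (fun b => (b j, tup J (fun _ (s : S) => s) b)) := by
    apply ent_congr hp
    intro a b
    simp only [Prod.mk.injEq]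
    constructor
    · rintro ⟨h1, h2⟩
      exact ⟨h1, by rw [h1], h2⟩
    · rintro ⟨h1, _, h2⟩
      exact ⟨h1, h2⟩
  rw [e4, e5, e6] at e3
  linarith

/-- Independent functions of the coordinate give together at least the sum of their informations. -/
lemma gain_add_le {A α β : Type} (h : (I → S) → A) (J : Finset I) {j : I} (hj : j ∉ J) (z : S → α)
    (z' : S → β) (hind : ent (m j) (fun s => (z s, z' s)) = ent (m j) z + ent (m j) z') :
    gain m h J j z + gain m h J j z' ≤ gain m h J j (fun s => s) := by
  have hp := pw_nonneg hm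
  have hps := pw_sum hs
  refine le_trans ?_ (gain_le_id hm hs h J hj (fun s => (z s, z' s)))
  unfold gain
  have e3 := ent_submod hp hps (fun b : I → S => z (b j)) (fun b : I → S => z' (b j))
    (fun b => (h b, tup J (fun _ (s : S) => s) b))
  have e4 : ent (pw m) (fun ω => (z (ω j), z' (ω j), h ω, tup J (fun _ (s : S) => s) ω)) =
      ent (pw m) (fun b => ((z (b j), z' (b j)), h b, tup J (fun _ (s : S) => s) b)) := by
    apply ent_congr hp
    intro a b
    simp only [Prod.mk.injEq]
    tauto
  rw [e4] at e3
  rw [hind]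
  linarith

lemma gain_id_nonneg {A : Type} (h : (I → S) → A) (J : Finset I) {j : I} (hj : j ∉ J) :
    0 ≤ gain m h J j (fun s => s) := by
  have hp := pw_nonneg hm
  have hps := pw_sum hs
  refine le_trans ?_ (gain_le_id hm hs h J hj (fun _ => ()))
  unfold gain
  have e1 : ent (m j) (fun _ => ()) = 0 := ent_const (fun s => hm j s) (hs j) _ fun _ _ => rfl
  have e2 : ent (pw m) (fun b => ((), h b, tup J (fun _ (s : S) => s) b)) =
      ent (pw m) (fun b => (h b, tup J (fun _ (s : S) => s) b)) := by
    apply ent_congr hp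
    intro a b
    simp only [Prod.mk.injEq]
    tauto
  rw [e1, e2]
  linarith

lemma info_id_le {A : Type} (h : (I → S) → A) (J : Finset I) :
    info m h J (fun _ s => s) ≤ ent (pw m) h := by
  unfold info
  have h1 : ent (pw m) (tup J (fun _ (s : S) => s)) ≤
      ent (pw m) (fun b => (h b, tup J (fun _ (s : S) => s) b)) := by
    apply ent_mono (pw_nonneg hm)
    intro a b _ _ h2
    exact (Prod.mk.inj h2).2
  linarith

/-- A function `G` of `h` which is determined by the functions `y i` of the coordinates. -/
lemma ent_le_info {A B β : Type} (h : (I → S) → A) (y : I → S → β) (G : A → B)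
    (hG : ∀ a b, pw m a ≠ 0 → pw m b ≠ 0 → (∀ i, y i (b i) = y i (a i)) → G (h b) = G (h a)) :
    ent (pw m) (fun b => G (h b)) ≤ info m h univ y := by
  have hp := pw_nonneg hm
  have hps := pw_sum hs
  unfold info
  have e3 := ent_submod hp hps h (tup univ y) (fun b => G (h b))
  have e4 : ent (pw m) (fun b => (h b, tup univ y b)) ≤
      ent (pw m) (fun ω => (h ω, tup univ y ω, G (h ω))) := by
    apply ent_mono hp
    intro a b _ _ h1
    simp only [Prod.mk.injEq] at h1 ⊢
    exact ⟨h1.1, h1.2.1⟩
  have e5 : ent (pw m) (fun ω => (h ω, G (h ω))) ≤ ent (pw m) h := by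
    apply ent_mono hp
    intro a b _ _ h1
    simp only [Prod.mk.injEq]
    exact ⟨h1, by rw [h1]⟩
  have e6 : ent (pw m) (fun ω => (tup univ y ω, G (h ω))) ≤ ent (pw m) (tup univ y) := by
    apply ent_mono hp
    intro a b ha hb h1
    simp only [Prod.mk.injEq]
    refine ⟨h1, hG a b ha hb fun i => ?_⟩
    exact (tup_eq_iff univ y b a).mp h1 i (Finset.mem_univ i)
  linarith

end info

end Run7.h881.CD
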