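import Mathlib
import Pool.Agent.Run7.h881.CD.Defs
import Pool.Agent.Run7.h881.CD.Prod

set_option autoImplicit false
set_option linter.unusedSectionVars false

/-!
# Composition of parallel repeated projection games with `d`-to-1 tests: the theorem
-/

namespace Run7.h881.CD

open Finset Run7.h881.CK
open scoped Classical

/-- Counting lemma. -/
lemma count_le {E U V : Type} (N : Finset E) (o : E → U ⊕ V) (x : E → ℝ) (c γ : ℝ) (hc : 0 ≤ c)
    (h1 : ∀ e ∈ N, x e ≤ c)
    (h2 : ∀ e ∈ N, ∀ e' ∈ N, ∀ v v', o e = Sum.inr v → o e' = Sum.inr v' → v ≠ v' → x e + x e' ≤ c)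
    (h3 : 2 * γ * (N.card : ℝ) ≤ ((N.filter fun e => ∃ v', o e = Sum.inr v').card : ℝ))
    (h4 : ∀ v, γ * (N.card : ℝ) ≤
      ((N.filter fun e => ∃ v', v' ≠ v ∧ o e = Sum.inr v').card : ℝ)) :
    ∑ e ∈ N, x e ≤ (1 - γ) * N.card * c := by
  set M := N.filter fun e => ∃ v', o e = Sum.inr v' with hM
  have hsplit := Finset.sum_filter_add_sum_filter_not N (fun e => ∃ v', o e = Sum.inr v') x
  have hcard := Finset.card_filter_add_card_filter_not (s := N) (fun e => ∃ v', o e = Sum.inr v')
  have hcard' : (M.card : ℝ) + ((N.filter fun e => ¬ ∃ v', o e = Sum.inr v').card : ℝ) = N.card := by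
    exact_mod_cast hcard
  have hrest : ∑ e ∈ N.filter (fun e => ¬ ∃ v', o e = Sum.inr v'), x e ≤
      ((N.filter fun e => ¬ ∃ v', o e = Sum.inr v').card : ℝ) * c := by
    rw [← nsmul_eq_mul]
    exact Finset.sum_le_card_nsmul _ _ _ fun e he => h1 e (Finset.mem_filter.mp he).1
  have hMsum : ∑ e ∈ M, x e ≤ M.card * c - γ * N.card * c := by
    by_cases hA : ∀ e ∈ M, x e ≤ c / 2
    · have h5 : ∑ e ∈ M, x e ≤ (M.card : ℝ) * (c / 2) := by
        rw [← nsmul_eq_mul]
        exact Finset.sum_le_card_nsmul _ _ _ hA
      nlinarith [mul_le_mul_of_nonneg_right h3 hc]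
    · push Not at hA
      obtain ⟨e1, he1, hx1⟩ := hA
      obtain ⟨e0, he0, hmax⟩ := Finset.exists_max_image M x ⟨e1, he1⟩
      have hx0 : c / 2 < x e0 := lt_of_lt_of_le hx1 (hmax e1 he1)
      obtain ⟨he0N, v, hv⟩ := Finset.mem_filter.mp he0
      have hx0c := h1 e0 he0N
      set M2 := N.filter fun e => ∃ v', v' ≠ v ∧ o e = Sum.inr v' with hM2
      have hsub : M2 ⊆ M := by
        intro e he
        rw [Finset.mem_filter] at he ⊢
        obtain ⟨h5, v', _, h6⟩ := he
        exact ⟨h5, v', h6⟩
      have h5 := Finset.sum_sdiff (f := x) hsub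
      have h6 : ∑ e ∈ M2, x e ≤ (M2.card : ℝ) * (c - x e0) := by
        rw [← nsmul_eq_mul]
        refine Finset.sum_le_card_nsmul _ _ _ fun e he => ?_
        obtain ⟨h7, v', h8, h9⟩ := Finset.mem_filter.mp he
        have := h2 e h7 e0 he0N v' v h9 hv h8
        linarith
      have h7 : ∑ e ∈ M \ M2, x e ≤ ((M \ M2).card : ℝ) * x e0 := by
        rw [← nsmul_eq_mul]
        exact Finset.sum_le_card_nsmul _ _ _ fun e he => hmax e (Finset.mem_sdiff.mp he).1
      have h8 : ((M \ M2).card : ℝ) + M2.card = M.card := by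
        exact_mod_cast Finset.card_sdiff_add_card_eq_card hsub
      have h9 := h4 v
      have h10 := mul_le_mul_of_nonneg_right h3 (by linarith : (0 : ℝ) ≤ c - x e0)
      have h11 := mul_le_mul_of_nonneg_right h9 (by linarith : (0 : ℝ) ≤ 2 * x e0 - c)
      have h12 : ((M \ M2).card : ℝ) = M.card - M2.card := by linarith
      rw [h12] at h7
      nlinarith
  nlinarith

variable {I U V S G : Type} [Fintype I] [Fintype S] [DecidableEq G]
variable {Q : I → Source U V S G} {P T E A B : Type}

lemma down_indep (q : Source U V S G) (hq : q.Indep) {u : U} {v v' : V} (h1 : q.nbr u v)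
    (h2 : q.nbr u v') (hne : v ≠ v') :
    ent (q.mu u) (fun s => (down q u (Sum.inr v) s, down q u (Sum.inr v') s)) =
      ent (q.mu u) (down q u (Sum.inr v)) + ent (q.mu u) (down q u (Sum.inr v')) := by
  have hp := q.mu_nonneg u
  unfold ent
  rw [← Finset.sum_add_distrib]
  refine Finset.sum_congr rfl fun s _ => ?_
  by_cases h0 : q.mu u s = 0
  · simp [h0]
  · have e1 : mass (q.mu u) (down q u (Sum.inr v)) s = q.lam v (q.proj u v s) := by
      rw [← q.marginal u v h1, Finset.sum_filter]
      unfold mass
      refine Finset.sum_congr rfl fun s' _ => ?_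
      simp only [down, Sum.inr.injEq]
    have e2 : mass (q.mu u) (down q u (Sum.inr v')) s = q.lam v' (q.proj u v' s) := by
      rw [← q.marginal u v' h2, Finset.sum_filter]
      unfold mass
      refine Finset.sum_congr rfl fun s' _ => ?_
      simp only [down, Sum.inr.injEq]
    have e3 : mass (q.mu u) (fun s => (down q u (Sum.inr v) s, down q u (Sum.inr v') s)) s =
        q.lam v (q.proj u v s) * q.lam v' (q.proj u v' s) := by
      rw [← hq u v v' h1 h2 hne, Finset.sum_filter]
      unfold mass
      refine Finset.sum_congr rfl fun s' _ => ?_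
      simp only [down, Prod.mk.injEq, Sum.inr.injEq]
    have p1 := mass_pos hp (down q u (Sum.inr v)) h0
    have p2 := mass_pos hp (down q u (Sum.inr v')) h0
    rw [e3, ← e1, ← e2, Real.log_mul p1.ne' p2.ne']
    ring

variable [Fintype E]

/-- The information of the tests about the honest label of a mixing vertex. -/
lemma info_sum_le (R : Game Q P T E A B) (hQ : ∀ i, (Q i).Indep) {γ : ℝ} {p : P}
    (hmix : R.Mixing γ p) (J : Finset I) :
    ∑ e ∈ univ.filter (fun e => R.src e = p),
        info (fun i => (Q i).mu (R.ownP p i)) (R.honP p) J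
          (fun i => down (Q i) (R.ownP p i) (R.ownT (R.tgt e) i)) ≤
      (1 - γ) * ((univ.filter fun e => R.src e = p).card : ℝ) *
        info (fun i => (Q i).mu (R.ownP p i)) (R.honP p) J (fun _ s => s) := by
  set m : I → S → ℝ := fun i => (Q i).mu (R.ownP p i) with hm'
  have hm : ∀ i s, 0 ≤ m i s := fun i s => (Q i).mu_nonneg _ _
  have hs : ∀ i, ∑ s, m i s = 1 := fun i => (Q i).mu_sum _
  set N := univ.filter (fun e => R.src e = p) with hN
  induction J using Finset.induction_on with
  | empty =>
    rw [info_empty hm hs, mul_zero]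
    refine le_of_eq (Finset.sum_eq_zero fun e _ => ?_)
    exact info_empty hm hs _ _
  | insert j J hj ih =>
    rw [info_insert_id hm hs _ _ hj, mul_add]
    have h1 : ∑ e ∈ N, info m (R.honP p) (insert j J)
        (fun i => down (Q i) (R.ownP p i) (R.ownT (R.tgt e) i)) ≤
        ∑ e ∈ N, info m (R.honP p) J (fun i => down (Q i) (R.ownP p i) (R.ownT (R.tgt e) i)) +
        ∑ e ∈ N, gain m (R.honP p) J j (down (Q j) (R.ownP p j) (R.ownT (R.tgt e) j)) := by
      rw [← Finset.sum_add_distrib]
      refine Finset.sum_le_sum fun e _ => ?_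
      exact info_insert_le hm hs _ _ hj _
    refine h1.trans (add_le_add ih ?_)
    apply count_le N (fun e => R.ownT (R.tgt e) j) _ _ γ (gain_id_nonneg hm hs _ _ hj)
    · intro e _
      exact gain_le_id hm hs _ _ hj _
    · intro e he e' he' v v' hv hv' hne
      have hn : (Q j).nbr (R.ownP p j) v := by
        have := R.right e j v hv
        rwa [(Finset.mem_filter.mp he).2] at this
      have hn' : (Q j).nbr (R.ownP p j) v' := by
        have := R.right e' j v' hv'
        rwa [(Finset.mem_filter.mp he').2] at this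
      rw [hv, hv']
      exact gain_add_le hm hs _ _ hj _ _ (down_indep (Q j) (hQ j) hn hn' hne)
    · refine (hmix j).1.trans (le_of_eq ?_)
      rw [hN, Finset.filter_filter]
    · intro v
      refine ((hmix j).2 v).trans (le_of_eq ?_)
      rw [hN, Finset.filter_filter]

/-- The average entropy of the tests at a mixing vertex. -/
lemma ent_sum_le [Fintype A] (R : Game Q P T E A B) (hQ : ∀ i, (Q i).Indep) (hperf : R.Perfect)
    {d : ℕ} (hd : 1 ≤ d) (hfib : ∀ e b, (univ.filter fun a => R.pi e a = b).card ≤ d)
    {γ : ℝ} (hγ : 0 < γ) (hγ1 : γ ≤ 1) {p : P} (hmix : R.Mixing γ p) :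
    ∑ e ∈ univ.filter (fun e => R.src e = p),
        ent (pw fun i => (Q i).mu (R.ownP p i)) (fun a => R.pi e (R.honP p a)) ≤
      ((univ.filter fun e => R.src e = p).card : ℝ) * ((1 - γ) / γ * Real.log d) := by
  set m : I → S → ℝ := fun i => (Q i).mu (R.ownP p i) with hm'
  have hm : ∀ i s, 0 ≤ m i s := fun i s => (Q i).mu_nonneg _ _
  have hs : ∀ i, ∑ s, m i s = 1 := fun i => (Q i).mu_sum _
  have hp := pw_nonneg hm
  have hps := pw_sum hs
  set N := univ.filter (fun e => R.src e = p) with hN
  set X := ∑ e ∈ N, ent (pw m) (fun a => R.pi e (R.honP p a)) with hX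
  have h1 : X ≤ ∑ e ∈ N, info m (R.honP p) univ
      (fun i => down (Q i) (R.ownP p i) (R.ownT (R.tgt e) i)) := by
    refine Finset.sum_le_sum fun e he => ?_
    have hep : R.src e = p := (Finset.mem_filter.mp he).2
    apply ent_le_info hm hs (R.honP p) _ (R.pi e)
    intro a b ha hb hab
    have ha' : ∀ i, 0 < (Q i).mu (R.ownP p i) (a i) := by
      intro i
      refine lt_of_le_of_ne (hm i _) (Ne.symm fun h => ha ?_)
      exact Finset.prod_eq_zero (Finset.mem_univ i) h
    have hb' : ∀ i, 0 < (Q i).mu (R.ownP p i) (b i) := by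
      intro i
      refine lt_of_le_of_ne (hm i _) (Ne.symm fun h => hb ?_)
      exact Finset.prod_eq_zero (Finset.mem_univ i) h
    have h5 := hperf e a
    have h6 := hperf e b
    rw [hep] at h5 h6
    rw [h5 ha', h6 hb']
    congr 1
    funext i
    exact hab i
  have h2 := info_sum_le R hQ hmix univ
  have h3 : info m (R.honP p) univ (fun _ s => s) ≤ ent (pw m) (R.honP p) := info_id_le hm hs _ _
  have hn : (0 : ℝ) ≤ N.card := Nat.cast_nonneg _
  have h4 : (N.card : ℝ) * ent (pw m) (R.honP p) ≤ X + N.card * Real.log d := by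
    rw [hX]
    have : (N.card : ℝ) * ent (pw m) (R.honP p) = ∑ e ∈ N, ent (pw m) (R.honP p) := by
      rw [Finset.sum_const, nsmul_eq_mul]
    rw [this]
    have h5 : (N.card : ℝ) * Real.log d = ∑ e ∈ N, Real.log d := by
      rw [Finset.sum_const, nsmul_eq_mul]
    rw [h5, ← Finset.sum_add_distrib]
    refine Finset.sum_le_sum fun e _ => ?_
    exact ent_fibre hp hps (R.honP p) (R.pi e) d hd (hfib e)
  have h5 : X ≤ (1 - γ) * (X + N.card * Real.log d) := by
    calc X ≤ (1 - γ) * (N.card : ℝ) * info m (R.honP p) univ (fun _ s => s) := h1.trans h2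
      _ ≤ (1 - γ) * (N.card : ℝ) * ent (pw m) (R.honP p) :=
          mul_le_mul_of_nonneg_left h3 (mul_nonneg (by linarith) hn)
      _ = (1 - γ) * ((N.card : ℝ) * ent (pw m) (R.honP p)) := by ring
      _ ≤ (1 - γ) * (X + N.card * Real.log d) := mul_le_mul_of_nonneg_left h4 (by linarith)
  have h6 : γ * X ≤ (1 - γ) * (N.card * Real.log d) := by linarith
  have h7 : (N.card : ℝ) * ((1 - γ) / γ * Real.log d) = ((1 - γ) * (N.card * Real.log d)) / γ := by
    field_simp
  rw [h7, le_div_iff₀ hγ, mul_comm]
  exact h6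

section law

/-- The distribution of the label of the entry `o`. -/
noncomputable def law (q : Source U V S G) (o : U ⊕ V) (x : S ⊕ G) : ℝ :=
  match o, x with
  | Sum.inl u, Sum.inl s => q.mu u s
  | Sum.inr v, Sum.inr g => q.lam v g
  | Sum.inl _, Sum.inr _ => 0
  | Sum.inr _, Sum.inl _ => 0

lemma sum_down (q : Source U V S G) (u : U) (o : U ⊕ V) (h1 : ∀ u', o = Sum.inl u' → u = u')
    (h2 : ∀ v, o = Sum.inr v → q.nbr u v) (x : S ⊕ G) :
    ∑ s, (q.mu u s * if down q u o s = x then 1 else 0) = law q o x := by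
  rcases o with u' | v
  · have := h1 u' rfl
    subst this
    rcases x with s' | g
    · simp only [down, law, Sum.inl.injEq, mul_ite, mul_one, mul_zero]
      rw [Finset.sum_ite_eq' univ s' (fun s => q.mu u s), if_pos (Finset.mem_univ _)]
    · simp [down, law]
  · rcases x with s' | g
    · simp [down, law]
    · simp only [down, law, Sum.inr.injEq, mul_ite, mul_one, mul_zero]
      rw [← q.marginal u v (h2 v rfl), Finset.sum_filter]

variable [Fintype G]

/-- The distribution of the honest label of a vertex of `T`. -/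
noncomputable def nu (R : Game Q P T E A B) (t : T) (b : B) : ℝ :=
  ∑ z : I → S ⊕ G, (∏ i, law (Q i) (R.ownT t i) (z i)) * if R.honT t z = b then 1 else 0

lemma nu_eq (R : Game Q P T E A B) (hperf : R.Perfect) (e : E) (b : B) :
    ∑ a, pw (fun i => (Q i).mu (R.ownP (R.src e) i)) a *
      (if R.pi e (R.honP (R.src e) a) = b then 1 else 0) = nu R (R.tgt e) b := by
  unfold nu
  have h1 : ∀ a : I → S, pw (fun i => (Q i).mu (R.ownP (R.src e) i)) a *
      (if R.pi e (R.honP (R.src e) a) = b then 1 else 0) =
      ∑ z : I → S ⊕ G, (∏ i, ((Q i).mu (R.ownP (R.src e) i) (a i) *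
        if down (Q i) (R.ownP (R.src e) i) (R.ownT (R.tgt e) i) (a i) = z i then 1 else 0)) *
        (if R.honT (R.tgt e) z = b then 1 else 0) := by
    intro a
    set z0 : I → S ⊕ G := fun i => down (Q i) (R.ownP (R.src e) i) (R.ownT (R.tgt e) i) (a i)
      with hz0
    rw [Finset.sum_eq_single z0]
    · have h2 : ∏ i, ((Q i).mu (R.ownP (R.src e) i) (a i) *
          if down (Q i) (R.ownP (R.src e) i) (R.ownT (R.tgt e) i) (a i) = z0 i then 1 else 0) =
          pw (fun i => (Q i).mu (R.ownP (R.src e) i)) a := by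
        unfold pw
        refine Finset.prod_congr rfl fun i _ => ?_
        rw [if_pos rfl, mul_one]
      rw [h2]
      by_cases h0 : pw (fun i => (Q i).mu (R.ownP (R.src e) i)) a = 0
      · rw [h0, zero_mul, zero_mul]
      · have h3 : ∀ i, 0 < (Q i).mu (R.ownP (R.src e) i) (a i) := by
          intro i
          refine lt_of_le_of_ne ((Q i).mu_nonneg _ _) (Ne.symm fun h => h0 ?_)
          exact Finset.prod_eq_zero (Finset.mem_univ i) h
        rw [hperf e a h3]
    · intro z _ hz
      have : ∃ i, z0 i ≠ z i := by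
        by_contra hcon
        push Not at hcon
        exact hz (funext fun i => (hcon i).symm)
      obtain ⟨i, hi⟩ := this
      have h4 : ∏ i, ((Q i).mu (R.ownP (R.src e) i) (a i) *
          if down (Q i) (R.ownP (R.src e) i) (R.ownT (R.tgt e) i) (a i) = z i then 1 else 0) = 0 := by
        apply Finset.prod_eq_zero (Finset.mem_univ i)
        rw [if_neg hi, mul_zero]
      rw [h4, zero_mul]
    · intro h
      exact absurd (Finset.mem_univ _) h
  rw [Finset.sum_congr rfl fun a _ => h1 a, Finset.sum_comm]
  refine Finset.sum_congr rfl fun z _ => ?_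
  rw [← Finset.sum_mul]
  congr 1
  rw [sum_prod_fn (fun i s => (Q i).mu (R.ownP (R.src e) i) s *
    if down (Q i) (R.ownP (R.src e) i) (R.ownT (R.tgt e) i) s = z i then 1 else 0)]
  refine Finset.prod_congr rfl fun i _ => ?_
  exact sum_down (Q i) _ _ (fun u h => R.left e i u h) (fun v h => R.right e i v h) _

end law

variable [Fintype G]

theorem Game.main [Fintype A] [Fintype B] [Nonempty A] [Nonempty B] (R : Game Q P T E A B)
    (hQ : ∀ i, (Q i).Indep) (hperf : R.Perfect) {d : ℕ} (hd : 1 ≤ d)
    (hfib : ∀ e b, (univ.filter fun a => R.pi e a = b).card ≤ d)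
    {γ : ℝ} (hγ : 0 < γ) (hγ1 : γ ≤ 1) :
    ∃ (F : P → A) (F' : T → B),
      (d : ℝ) ^ (-((1 - γ) / γ)) * ((univ.filter fun e => R.Mixing γ (R.src e)).card : ℝ) ≤
        ((univ.filter fun e => R.pi e (F (R.src e)) = F' (R.tgt e)).card : ℝ) := by
  have hmaxb : ∀ t : T, ∃ b, ∀ b', nu R t b' ≤ nu R t b := by
    intro t
    obtain ⟨b, _, hb⟩ := Finset.exists_max_image (univ : Finset B) (nu R t) Finset.univ_nonempty
    exact ⟨b, fun b' => hb b' (Finset.mem_univ _)⟩
  choose F' hF' using hmaxb
  set κ : ℝ := (1 - γ) / γ * Real.log d with hκ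
  have hd' : (0 : ℝ) < d := by exact_mod_cast hd
  have hpow : (d : ℝ) ^ (-((1 - γ) / γ)) = Real.exp (-κ) := by
    rw [Real.rpow_def_of_pos hd', hκ]
    congr 1
    ring
  have hP : ∀ p : P, ∃ x : A, R.Mixing γ p →
      Real.exp (-κ) * ((univ.filter fun e => R.src e = p).card : ℝ) ≤
        (((univ.filter fun e => R.src e = p).filter fun e => R.pi e x = F' (R.tgt e)).card : ℝ) := by
    intro p
    by_cases hmix : R.Mixing γ p
    · set m : I → S → ℝ := fun i => (Q i).mu (R.ownP p i) with hm'
      have hm : ∀ i s, 0 ≤ m i s := fun i s => (Q i).mu_nonneg _ _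
      have hs : ∀ i, ∑ s, m i s = 1 := fun i => (Q i).mu_sum _
      have hp := pw_nonneg hm
      have hps := pw_sum hs
      set N := univ.filter (fun e => R.src e = p) with hN
      have h1 : ∀ e ∈ N, Real.exp (-(ent (pw m) (fun a => R.pi e (R.honP p a)))) ≤
          ∑ a, pw m a * (if R.pi e (R.honP p a) = F' (R.tgt e) then 1 else 0) := by
        intro e he
        have hep : R.src e = p := (Finset.mem_filter.mp he).2
        have h2 : ∀ b, ∑ a, pw m a * (if R.pi e (R.honP p a) = b then 1 else 0) =
            nu R (R.tgt e) b := by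
          intro b
          have := nu_eq R hperf e b
          rw [hep] at this
          exact this
        rw [h2]
        have h3 : ∀ ω, pw m ω ≠ 0 →
            mass (pw m) (fun a => R.pi e (R.honP p a)) ω ≤ nu R (R.tgt e) (F' (R.tgt e)) := by
          intro ω _
          refine le_trans (le_of_eq ?_) (hF' (R.tgt e) (R.pi e (R.honP p ω)))
          rw [← h2]
          unfold mass
          refine Finset.sum_congr rfl fun a _ => ?_
          by_cases h : R.pi e (R.honP p a) = R.pi e (R.honP p ω)
          · rw [if_pos h, if_pos h, mul_one]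
          · rw [if_neg h, if_neg h, mul_zero]
        have h4 := ent_ge hp hps (fun a => R.pi e (R.honP p a)) h3
        have h5 : 0 < nu R (R.tgt e) (F' (R.tgt e)) := by
          have : ∃ ω, pw m ω ≠ 0 := by
            by_contra hcon
            push Not at hcon
            rw [Finset.sum_eq_zero fun ω _ => hcon ω] at hps
            exact zero_ne_one hps
          obtain ⟨ω, hω⟩ := this
          exact lt_of_lt_of_le (mass_pos hp _ hω) (h3 ω hω)
        rw [← Real.exp_log h5]
        exact Real.exp_le_exp.mpr (by linarith)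
      have h6 := ent_sum_le R hQ hperf hd hfib hγ hγ1 hmix
      have h7 : Real.exp (-κ) * (N.card : ℝ) ≤
          ∑ e ∈ N, Real.exp (-(ent (pw m) (fun a => R.pi e (R.honP p a)))) := by
        have h8 : ∀ e ∈ N, Real.exp (-κ) * (1 + κ - ent (pw m) (fun a => R.pi e (R.honP p a))) ≤
            Real.exp (-(ent (pw m) (fun a => R.pi e (R.honP p a)))) := by
          intro e _
          have h9 := Real.add_one_le_exp (κ - ent (pw m) (fun a => R.pi e (R.honP p a)))
          have h10 : Real.exp (-(ent (pw m) (fun a => R.pi e (R.honP p a)))) =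
              Real.exp (-κ) * Real.exp (κ - ent (pw m) (fun a => R.pi e (R.honP p a))) := by
            rw [← Real.exp_add]
            congr 1
            ring
          rw [h10]
          exact mul_le_mul_of_nonneg_left (by linarith) (Real.exp_pos _).le
        refine le_trans ?_ (Finset.sum_le_sum h8)
        rw [← Finset.mul_sum]
        refine mul_le_mul_of_nonneg_left ?_ (Real.exp_pos _).le
        rw [Finset.sum_sub_distrib, Finset.sum_const, nsmul_eq_mul]
        nlinarith
      have h11 : Real.exp (-κ) * (N.card : ℝ) ≤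
          ∑ a, pw m a * ((N.filter fun e => R.pi e (R.honP p a) = F' (R.tgt e)).card : ℝ) := by
        refine (h7.trans (Finset.sum_le_sum h1)).trans (le_of_eq ?_)
        rw [Finset.sum_comm]
        refine Finset.sum_congr rfl fun a _ => ?_
        rw [← Finset.mul_sum, Finset.card_filter, Nat.cast_sum]
        congr 1
        refine Finset.sum_congr rfl fun e _ => ?_
        split_ifs <;> simp
      by_contra hcon
      push Not at hcon
      have h12 : ∑ a, pw m a * ((N.filter fun e => R.pi e (R.honP p a) = F' (R.tgt e)).card : ℝ) <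
          Real.exp (-κ) * (N.card : ℝ) := by
        have h13 : ∃ ω, 0 < pw m ω := by
          by_contra hcon
          push Not at hcon
          have : ∀ ω, pw m ω = 0 := fun ω => le_antisymm (hcon ω) (hp ω)
          rw [Finset.sum_eq_zero fun ω _ => this ω] at hps
          exact zero_ne_one hps
        obtain ⟨ω, hω⟩ := h13
        have h14 : Real.exp (-κ) * (N.card : ℝ) =
            ∑ a, pw m a * (Real.exp (-κ) * (N.card : ℝ)) := by
          rw [← Finset.sum_mul, hps, one_mul]
        rw [h14]
        refine Finset.sum_lt_sum (fun a _ => mul_le_mul_of_nonneg_left (hcon _).2.le (hp a)) ?_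
        exact ⟨ω, Finset.mem_univ _, mul_lt_mul_of_pos_left (hcon _).2 hω⟩
      linarith
    · exact ⟨Classical.arbitrary A, fun h => absurd h hmix⟩
  choose F hF using hP
  refine ⟨F, F', ?_⟩
  rw [hpow]
  have h1 : ((univ.filter fun e => R.Mixing γ (R.src e)).card : ℝ) =
      ∑ p ∈ univ.image R.src, (((univ.filter fun e => R.Mixing γ (R.src e)).filter
        fun e => R.src e = p).card : ℝ) := by
    rw [← Nat.cast_sum]
    congr 1
    exact Finset.card_eq_sum_card_fiberwise fun e _ =>
      Finset.mem_coe.mpr (Finset.mem_image_of_mem _ (Finset.mem_univ e))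
  have h2 : ((univ.filter fun e => R.pi e (F (R.src e)) = F' (R.tgt e)).card : ℝ) =
      ∑ p ∈ univ.image R.src, (((univ.filter fun e => R.pi e (F (R.src e)) = F' (R.tgt e)).filter
        fun e => R.src e = p).card : ℝ) := by
    rw [← Nat.cast_sum]
    congr 1
    exact Finset.card_eq_sum_card_fiberwise fun e _ =>
      Finset.mem_coe.mpr (Finset.mem_image_of_mem _ (Finset.mem_univ e))
  rw [h1, h2, Finset.mul_sum]
  refine Finset.sum_le_sum fun p _ => ?_
  by_cases hmix : R.Mixing γ p
  · have h3 := hF p hmix
    have e1 : (univ.filter fun e => R.Mixing γ (R.src e)).filter (fun e => R.src e = p) =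
        univ.filter fun e => R.src e = p := by
      ext e
      simp only [Finset.mem_filter, Finset.mem_univ, true_and]
      constructor
      · exact fun h => h.2
      · intro h
        exact ⟨by rw [h]; exact hmix, h⟩
    have e2 : (univ.filter fun e => R.pi e (F (R.src e)) = F' (R.tgt e)).filter
        (fun e => R.src e = p) =
        (univ.filter fun e => R.src e = p).filter fun e => R.pi e (F p) = F' (R.tgt e) := by
      ext e
      simp only [Finset.mem_filter, Finset.mem_univ, true_and]
      constructor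
      · rintro ⟨h, h'⟩
        refine ⟨h', ?_⟩
        rw [← h']
        exact h
      · rintro ⟨h, h'⟩
        refine ⟨?_, h⟩
        rw [h]
        exact h'
    rw [e1, e2]
    exact h3
  · have e1 : (univ.filter fun e => R.Mixing γ (R.src e)).filter (fun e => R.src e = p) = ∅ := by
      ext e
      simp only [Finset.mem_filter, Finset.mem_univ, true_and]
      constructor
      · rintro ⟨h, h'⟩
        rw [h'] at h
        exact absurd h hmix
      · intro h
        exact absurd h (Finset.notMem_empty _)
    rw [e1, Finset.card_empty, Nat.cast_zero, mul_zero]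
    exact Nat.cast_nonneg _

end Run7.h881.CD
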