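import Mathlib
import Pool.Agent.Run7.h881.CD.Main

set_option autoImplicit false
set_option linter.unusedSectionVars false

/-!
# Corollaries: tuples of right vertices only, and the sources given by 3-CNF formulas
-/

namespace Run7.h881.CD

open Finset Run7.h881.CK
open scoped Classical

variable {I U V S G : Type} [Fintype I] [Fintype S] [DecidableEq G]
variable {Q : I → Source U V S G} {P T E A B : Type}

theorem Game.plain [Fintype E] [Fintype G] [Fintype A] [Fintype B] [Nonempty A] [Nonempty B]
    (R : Game Q P T E A B) (hQ : ∀ i, (Q i).Indep) (hperf : R.Perfect) {d : ℕ} (hd : 1 ≤ d)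
    (hfib : ∀ e b, (univ.filter fun a => R.pi e a = b).card ≤ d)
    (hT : ∀ t i, ∃ v, R.ownT t i = Sum.inr v)
    (hhalf : ∀ p i v, 2 * (univ.filter fun e => R.src e = p ∧ R.ownT (R.tgt e) i = Sum.inr v).card ≤
      (univ.filter fun e => R.src e = p).card) :
    ∃ (F : P → A) (F' : T → B), Fintype.card E ≤
        d * (univ.filter fun e => R.pi e (F (R.src e)) = F' (R.tgt e)).card := by
  have hmix : ∀ p, R.Mixing (1 / 2) p := by
    intro p i
    refine ⟨?_, fun v => ?_⟩
    · have h1 : (univ.filter fun e => R.src e = p ∧ ∃ v', R.ownT (R.tgt e) i = Sum.inr v') =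
          univ.filter fun e => R.src e = p := by
        ext e
        simp only [Finset.mem_filter, Finset.mem_univ, true_and]
        exact ⟨fun h => h.1, fun h => ⟨h, hT _ _⟩⟩
      rw [h1]
      linarith
    · have h1 := Finset.card_filter_add_card_filter_not (s := univ.filter fun e => R.src e = p)
        (fun e => R.ownT (R.tgt e) i = Sum.inr v)
      rw [Finset.filter_filter] at h1
      have h2 : ((univ.filter fun e => R.src e = p).filter
          fun e => ¬ R.ownT (R.tgt e) i = Sum.inr v) =
          univ.filter fun e => R.src e = p ∧ ∃ v', v' ≠ v ∧ R.ownT (R.tgt e) i = Sum.inr v' := by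
        ext e
        simp only [Finset.mem_filter, Finset.mem_univ, true_and]
        constructor
        · rintro ⟨h, h'⟩
          obtain ⟨v', hv'⟩ := hT (R.tgt e) i
          refine ⟨h, v', ?_, hv'⟩
          rintro rfl
          exact h' hv'
        · rintro ⟨h, v', hne, hv'⟩
          refine ⟨h, fun h2 => hne ?_⟩
          rw [hv'] at h2
          exact Sum.inr.inj h2
      rw [h2] at h1
      have h3 := hhalf p i v
      have h4 : ((univ.filter fun e => R.src e = p).card : ℝ) ≤
          2 * ((univ.filter fun e => R.src e = p ∧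
            ∃ v', v' ≠ v ∧ R.ownT (R.tgt e) i = Sum.inr v').card : ℝ) := by
        have : (univ.filter fun e => R.src e = p).card ≤
            2 * (univ.filter fun e => R.src e = p ∧
              ∃ v', v' ≠ v ∧ R.ownT (R.tgt e) i = Sum.inr v').card := by omega
        exact_mod_cast this
      linarith
  obtain ⟨F, F', h⟩ := R.main hQ hperf hd hfib (γ := 1 / 2) (by norm_num) (by norm_num)
  refine ⟨F, F', ?_⟩
  have h1 : (univ.filter fun e => R.Mixing (1 / 2) (R.src e)) = univ := by
    ext e
    simp only [Finset.mem_filter, Finset.mem_univ, true_and, iff_true]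
    exact hmix _
  have hd' : (0 : ℝ) < d := by exact_mod_cast hd
  have h2 : (d : ℝ) ^ (-((1 - (1 / 2 : ℝ)) / (1 / 2))) = (d : ℝ)⁻¹ := by
    have : -((1 - (1 / 2 : ℝ)) / (1 / 2)) = -1 := by norm_num
    rw [this, Real.rpow_neg_one]
  rw [h1, h2, Finset.card_univ, inv_mul_le_iff₀ hd'] at h
  exact_mod_cast h

/-- The clause-variable game of a 3-CNF formula with clauses on three different variables: `var c j`
is the variable of the literal `j` of the clause `c`, which is negated if `neg c j`. The distribution
is uniform on the assignments of the three variables with an odd number of true literals. -/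
theorem threeSat {n m : ℕ} (var : Fin m → Fin 3 → Fin n) (neg : Fin m → Fin 3 → Bool)
    (hinj : ∀ c, Function.Injective (var c)) :
    ∃ q : Source (Fin m) (Fin n) (Fin 3 → Bool) Bool, q.Indep ∧
      (∀ c v, q.nbr c v ↔ ∃ j, var c j = v) ∧
      (∀ c j s, q.proj c (var c j) s = s j) ∧
      (∀ c s, 0 < q.mu c s → ∃ j, s j ≠ neg c j) := by
  let w : (Fin 3 → Bool) → (Fin 3 → Bool) → ℝ := fun ng s =>
    if (xor (xor (xor (s 0) (ng 0)) (xor (s 1) (ng 1))) (xor (s 2) (ng 2))) = true then 1 / 4 else 0
  have hproj : ∀ c (v : Fin n), ∃ f : (Fin 3 → Bool) → Bool, ∀ j, var c j = v → f = fun s => s j := by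
    intro c v
    by_cases h : ∃ j, var c j = v
    · obtain ⟨j, hj⟩ := h
      refine ⟨fun s => s j, fun j' hj' => ?_⟩
      have : j = j' := hinj c (by rw [hj, hj'])
      rw [this]
    · exact ⟨fun _ => true, fun j hj => absurd ⟨j, hj⟩ h⟩
  choose pr hpr using hproj
  have hsum : ∀ ng : Fin 3 → Bool, ∑ s, w ng s = 1 := by
    intro ng
    have h1 : ((univ : Finset (Fin 3 → Bool)).filter fun s =>
        (xor (xor (xor (s 0) (ng 0)) (xor (s 1) (ng 1))) (xor (s 2) (ng 2))) = true).card = 4 := by
      revert ng
      decide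
    simp only [w]
    rw [← Finset.sum_filter, Finset.sum_const, h1]
    norm_num
  have hmarg : ∀ (ng : Fin 3 → Bool) (j : Fin 3) (g : Bool),
      ∑ s with s j = g, w ng s = 1 / 2 := by
    intro ng j g
    have h1 : ((univ : Finset (Fin 3 → Bool)).filter fun s => s j = g ∧
        (xor (xor (xor (s 0) (ng 0)) (xor (s 1) (ng 1))) (xor (s 2) (ng 2))) = true).card = 2 := by
      revert ng j g
      decide
    simp only [w]
    rw [← Finset.sum_filter, Finset.filter_filter, Finset.sum_const, h1]
    norm_num
  have hpair : ∀ (ng : Fin 3 → Bool) (j j' : Fin 3), j ≠ j' → ∀ (g g' : Bool),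
      ∑ s with s j = g ∧ s j' = g', w ng s = 1 / 4 := by
    intro ng j j' hne g g'
    have h1 : ((univ : Finset (Fin 3 → Bool)).filter fun s => (s j = g ∧ s j' = g') ∧
        (xor (xor (xor (s 0) (ng 0)) (xor (s 1) (ng 1))) (xor (s 2) (ng 2))) = true).card = 1 := by
      revert ng j j' g g'
      decide
    simp only [w]
    rw [← Finset.sum_filter, Finset.filter_filter, Finset.sum_const, h1]
    norm_num
  refine ⟨⟨fun c v => ∃ j, var c j = v, pr, fun c s => w (neg c) s, fun _ _ => 1 / 2, ?_, ?_, ?_⟩,
    ?_, ?_, ?_, ?_⟩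
  · intro c s
    simp only [w]
    split_ifs <;> norm_num
  · intro c
    exact hsum (neg c)
  · rintro c v ⟨j, hj⟩ g
    rw [hpr c v j hj]
    exact hmarg (neg c) j g
  · rintro c v v' ⟨j, hj⟩ ⟨j', hj'⟩ hne g g'
    have hjj : j ≠ j' := by
      rintro rfl
      exact hne (by rw [← hj, ← hj'])
    show ∑ s with pr c v s = g ∧ pr c v' s = g', w (neg c) s = 1 / 2 * (1 / 2)
    rw [hpr c v j hj, hpr c v' j' hj', hpair (neg c) j j' hjj g g']
    norm_num
  · intro c v
    exact Iff.rfl
  · intro c j s
    show pr c (var c j) s = s j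
    rw [hpr c (var c j) j rfl]
  · intro c s hpos
    change 0 < w (neg c) s at hpos
    by_contra hcon
    push Not at hcon
    have : w (neg c) s = 0 := by
      simp only [w]
      rw [hcon 0, hcon 1, hcon 2]
      simp
    rw [this] at hpos
    exact lt_irrefl _ hpos

end Run7.h881.CD
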